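import Pool.Agent.Y782.WU.Stm
import Pool.Agent.TH650.GB.CB

/-! # WU-MT: the weighted matrix tree theorem for finite multigraphs -/

set_option autoImplicit false

open Finset Matrix

namespace Pool.Agent.Y909.WU

open Pool.Agent.Y782.WU

section

variable {W E : Type}

open Classical in
/-- integer incidence vector -/
noncomputable def incz (M : FG W E) (e : E) (v : W) : ℤ :=
  (if M.s e = v then 1 else 0) - (if M.t e = v then 1 else 0)

lemma incz_cast (M : FG W E) (e : E) (v : W) : ((incz M e v : ℤ) : ℝ) = inc M e v := by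
  unfold incz inc
  push_cast
  rfl

open Classical in
lemma comb (M : FG W E) {ι : Type} [Fintype ι] (S : Finset E) (I : ι → E)
    (hI : ∀ e ∈ S, ∃ a, I a = e) (a b : W) (h : Rch M S a b) :
    ∃ p : ι → ℤ, ∀ w, ∑ i, p i * incz M (I i) w =
      (if a = w then 1 else 0) - (if b = w then 1 else 0) := by
  induction h with
  | rel a b h =>
    obtain ⟨e, he, rfl, rfl⟩ := h
    obtain ⟨i, rfl⟩ := hI e he
    refine ⟨fun j => if j = i then 1 else 0, fun w => ?_⟩
    simp [incz]
  | refl a => exact ⟨0, fun w => by simp⟩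
  | symm a b _ ih =>
    obtain ⟨p, hp⟩ := ih
    refine ⟨fun i => - p i, fun w => ?_⟩
    simp only [neg_mul, Finset.sum_neg_distrib, hp]
    ring
  | trans a b c _ _ ih1 ih2 =>
    obtain ⟨p, hp⟩ := ih1
    obtain ⟨q, hq⟩ := ih2
    refine ⟨fun i => p i + q i, fun w => ?_⟩
    simp only [add_mul, Finset.sum_add_distrib, hp, hq]
    ring

open Classical in
lemma det_conn (M : FG W E) (r : W) (hr : r ∈ M.A) (S : Finset E)
    (I : {v // v ∈ M.A.erase r} → E) (hI : ∀ e ∈ S, ∃ a, I a = e)
    (hc : ∀ a ∈ M.A, ∀ b ∈ M.A, Rch M S a b) :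
    (Matrix.det (Matrix.of (fun a w : {v // v ∈ M.A.erase r} => inc M (I a) w))) ^ 2 = 1 := by
  set N : Matrix {v // v ∈ M.A.erase r} {v // v ∈ M.A.erase r} ℤ :=
    Matrix.of (fun a w => incz M (I a) w) with hN
  have h1 : Matrix.of (fun a w : {v // v ∈ M.A.erase r} => inc M (I a) w) =
      N.map (Int.castRingHom ℝ) := by
    ext a w
    simp [hN, incz_cast]
  have h2 : ∀ v : {v // v ∈ M.A.erase r}, ∃ p : {v // v ∈ M.A.erase r} → ℤ, ∀ w,
      ∑ i, p i * incz M (I i) w = (if (v : W) = w then 1 else 0) - (if r = w then 1 else 0) :=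
    fun v => comb M S I hI v r (hc v (Finset.mem_of_mem_erase v.2) r hr)
  choose P hP using h2
  have h3 : (Matrix.of P) * N = 1 := by
    ext v w
    rw [Matrix.mul_apply, Matrix.one_apply]
    have h5 := hP v w
    simp only [Matrix.of_apply, hN]
    rw [h5]
    have hrw : r ≠ w := fun h => (Finset.ne_of_mem_erase w.2) h.symm
    rw [if_neg hrw, sub_zero]
    by_cases hvw : v = w
    · simp [hvw]
    · have h6 : (v : W) ≠ w := fun h => hvw (Subtype.ext h)
      simp [hvw, h6]
  have h4 : IsUnit N.det := by
    have h5 := congrArg Matrix.det h3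
    rw [Matrix.det_mul, Matrix.det_one] at h5
    exact IsUnit.of_mul_eq_one _ (by rw [mul_comm]; exact h5)
  rw [h1, ← RingHom.mapMatrix_apply, ← RingHom.map_det]
  rcases Int.isUnit_iff.1 h4 with h | h <;> simp [h]

open Classical in
lemma sum_pt (A : Finset W) (r u : W) (hu : u ∈ A) (f : W → ℝ) (hf : f r = 0) :
    ∑ w : {v // v ∈ A.erase r}, (if u = (w : W) then (1 : ℝ) else 0) * f w = f u := by
  rw [Finset.sum_coe_sort (A.erase r) (fun w => (if u = w then (1 : ℝ) else 0) * f w)]
  simp only [ite_mul, one_mul, zero_mul]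
  rw [Finset.sum_ite_eq]
  split_ifs with h
  · rfl
  · have : u = r := by
      by_contra hne
      exact h (Finset.mem_erase.2 ⟨hne, hu⟩)
    rw [this, hf]

open Classical in
lemma det_disc (M : FG W E) (r : W) (S : Finset E) (hSD : S ⊆ M.D)
    (I : {v // v ∈ M.A.erase r} → E) (hI : ∀ a, I a ∈ S)
    (hc : ¬ ∀ a ∈ M.A, ∀ b ∈ M.A, Rch M S a b) :
    Matrix.det (Matrix.of (fun a w : {v // v ∈ M.A.erase r} => inc M (I a) w)) = 0 := by
  have h0 : ∃ a0 ∈ M.A, ¬ Rch M S a0 r := by
    by_contra h
    push Not at h
    exact hc fun a ha b hb =>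
      Relation.EqvGen.trans _ _ _ (h a ha) (Relation.EqvGen.symm _ _ (h b hb))
  obtain ⟨a0, ha0, hn⟩ := h0
  rw [← Matrix.exists_mulVec_eq_zero_iff]
  refine ⟨fun w => if Rch M S a0 w then 1 else 0, ?_, ?_⟩
  · intro h
    have hne : a0 ≠ r := by
      rintro rfl
      exact hn (Relation.EqvGen.refl _)
    have h7 := congrFun h ⟨a0, Finset.mem_erase.2 ⟨hne, ha0⟩⟩
    simp [show Rch M S a0 a0 from Relation.EqvGen.refl _] at h7
  · ext a
    have he := hI a
    have heD := hSD he
    simp only [Matrix.mulVec, dotProduct, Matrix.of_apply, Pi.zero_apply]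
    unfold inc
    simp only [sub_mul, Finset.sum_sub_distrib]
    rw [sum_pt M.A r (M.s (I a)) (M.hs _ heD) (fun w => if Rch M S a0 w then 1 else 0) (by simp [hn]),
      sum_pt M.A r (M.t (I a)) (M.ht _ heD) (fun w => if Rch M S a0 w then 1 else 0) (by simp [hn])]
    have hst : Rch M S a0 (M.s (I a)) ↔ Rch M S a0 (M.t (I a)) := by
      have hrel : Rch M S (M.s (I a)) (M.t (I a)) := Relation.EqvGen.rel _ _ ⟨I a, he, rfl, rfl⟩
      exact ⟨fun h => Relation.EqvGen.trans _ _ _ h hrel,
        fun h => Relation.EqvGen.trans _ _ _ h (Relation.EqvGen.symm _ _ hrel)⟩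
    simp [hst]

open Classical in
lemma count {ι : Type} [Fintype ι] (D S : Finset E) (hSD : S ⊆ D)
    (hc : S.card = Fintype.card ι) :
    (Finset.univ.filter (fun I : ι → {e // e ∈ D} =>
      Finset.univ.image (fun a => (I a : E)) = S)).card = (Fintype.card ι).factorial := by
  have e1 : {I : ι → {e // e ∈ D} // Finset.univ.image (fun a => (I a : E)) = S} ≃
      (ι ≃ {e // e ∈ S}) :=
    { toFun := fun I => Equiv.ofBijective (fun a => ⟨(I.1 a : E), by
        have := Finset.mem_image_of_mem (fun a => (I.1 a : E)) (Finset.mem_univ a)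
        rwa [I.2] at this⟩) (by
        rw [Fintype.bijective_iff_surjective_and_card]
        refine ⟨?_, by rw [Fintype.card_coe, hc]⟩
        rintro ⟨e, he⟩
        have he' := he
        rw [← I.2, Finset.mem_image] at he'
        obtain ⟨a, _, ha⟩ := he'
        exact ⟨a, Subtype.ext ha⟩)
      invFun := fun φ => ⟨fun a => ⟨(φ a : E), hSD (φ a).2⟩, by
        ext e
        simp only [Finset.mem_image, Finset.mem_univ, true_and]
        constructor
        · rintro ⟨a, rfl⟩
          exact (φ a).2
        · intro he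
          exact ⟨φ.symm ⟨e, he⟩, by simp⟩⟩
      left_inv := fun I => by
        apply Subtype.ext
        funext a
        rfl
      right_inv := fun φ => by
        apply Equiv.ext
        intro a
        rfl }
  rw [← Fintype.card_subtype, Fintype.card_congr e1,
    Fintype.card_equiv (Fintype.equivOfCardEq (by rw [Fintype.card_coe, hc]))]

end

open Classical in
/-- **The weighted matrix tree theorem.** -/
theorem mt : S_MT := by
  intro W E M r hr x
  have key := Pool.Agent.TH650.GB.cb_gram (R := ℝ) (ι := {v // v ∈ M.A.erase r})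
    (κ := {e // e ∈ M.D}) (fun e => x e) (fun e v => inc M e v)
  have hmat : (∑ e : {e // e ∈ M.D}, x e • vecMulVec
      (fun v : {v // v ∈ M.A.erase r} => inc M e v)
      (fun v : {v // v ∈ M.A.erase r} => inc M e v)) =
      Matrix.of (fun v w : {v // v ∈ M.A.erase r} => ∑ e ∈ M.D, x e * inc M e v * inc M e w) := by
    ext v w
    rw [Matrix.sum_apply]
    simp only [Matrix.smul_apply, vecMulVec_apply, smul_eq_mul, Matrix.of_apply]
    rw [← Finset.sum_coe_sort M.D (fun e => x e * inc M e v * inc M e w)]
    exact Finset.sum_congr rfl fun e _ => by ring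
  rw [hmat] at key
  have hm : Fintype.card {v // v ∈ M.A.erase r} + 1 = M.A.card := by
    rw [Fintype.card_coe]
    exact Finset.card_erase_add_one hr
  have hR : ∑ I : {v // v ∈ M.A.erase r} → {e // e ∈ M.D},
      (∏ a, x (I a)) * (Matrix.of fun a => fun v : {v // v ∈ M.A.erase r} => inc M (I a) v).det ^ 2 =
      ((Fintype.card {v // v ∈ M.A.erase r}).factorial : ℝ) *
        ∑ S ∈ M.D.powerset.filter (fun S => IsST M S), ∏ e ∈ S, x e := by
    rw [← Finset.sum_fiberwise_of_maps_to (s := Finset.univ) (t := M.D.powerset)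
      (g := fun I : {v // v ∈ M.A.erase r} → {e // e ∈ M.D} =>
        Finset.univ.image (fun a => (I a : E)))
      (fun I _ => by
        rw [Finset.mem_powerset]
        intro e he
        rw [Finset.mem_image] at he
        obtain ⟨a, _, rfl⟩ := he
        exact (I a).2)]
    rw [Finset.sum_filter, Finset.mul_sum]
    refine Finset.sum_congr rfl fun S hS => ?_
    rw [Finset.mem_powerset] at hS
    have hinj : ∀ I : {v // v ∈ M.A.erase r} → {e // e ∈ M.D},
        Finset.univ.image (fun a => (I a : E)) = S → ¬ Function.Injective (fun a => (I a : E)) →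
        (Matrix.of fun a => fun v : {v // v ∈ M.A.erase r} => inc M (I a) v).det = 0 := by
      intro I _ hni
      rw [Function.Injective] at hni
      push Not at hni
      obtain ⟨a, b, hab, hne⟩ := hni
      refine Matrix.det_zero_of_row_eq hne ?_
      funext v
      simp only [Matrix.of_apply]
      rw [hab]
    split_ifs with hST
    · have hcard : S.card = Fintype.card {v // v ∈ M.A.erase r} := by
        have := hST.2.1
        omega
      rw [← count (ι := {v // v ∈ M.A.erase r}) M.D S hS hcard, ← nsmul_eq_mul,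
        ← Finset.sum_const]
      refine Finset.sum_congr (by ext I; simp only [Finset.mem_filter, Finset.mem_univ, true_and]) fun I hI => ?_
      rw [Finset.mem_filter] at hI
      have hI2 := hI.2
      have hinj' : Function.Injective (fun a => (I a : E)) := by
        rw [← Finset.card_univ, ← hI2] at hcard
        have := Finset.card_image_iff.1 hcard
        intro a b hab
        exact this (Finset.mem_coe.2 (Finset.mem_univ a)) (Finset.mem_coe.2 (Finset.mem_univ b)) hab
      have hd := det_conn M r hr S (fun a => (I a : E)) (fun e he => by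
        rw [← hI2, Finset.mem_image] at he
        obtain ⟨a, _, ha⟩ := he
        exact ⟨a, ha⟩) hST.2.2
      rw [hd, mul_one, ← hI2, Finset.prod_image (fun a _ b _ hab => hinj' hab)]
    · rw [mul_zero]
      refine Finset.sum_eq_zero fun I hI => ?_
      rw [Finset.mem_filter] at hI
      have hI2 := hI.2
      by_cases hi : Function.Injective (fun a => (I a : E))
      · have hcard : S.card + 1 = M.A.card := by
          rw [← hI2, Finset.card_image_of_injective _ hi, Finset.card_univ]
          exact hm
        have hc : ¬ ∀ a ∈ M.A, ∀ b ∈ M.A, Rch M S a b := fun h => hST ⟨hS, hcard, h⟩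
        have hd := det_disc M r S hS (fun a => (I a : E)) (fun a => by
          rw [← hI2]
          exact Finset.mem_image_of_mem _ (Finset.mem_univ a)) hc
        rw [hd]
        ring
      · rw [hinj I hI2 hi]
        ring
  have key2 := key.trans hR
  have hpos : ((Fintype.card {v // v ∈ M.A.erase r}).factorial : ℝ) ≠ 0 := by
    exact_mod_cast Nat.factorial_ne_zero _
  have key3 := mul_left_cancel₀ hpos key2
  convert key3 using 2

end Pool.Agent.Y909.WU
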